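import Pool.Agent.W610.HY.Stm3

set_option autoImplicit false

namespace Pool.Agent.W201.HY.GOODM

open Pool.Agent.W610.HY
open MeasureTheory Set Metric Filter Topology

theorem mv_mem {E : Type} [NormedAddCommGroup E] (P : Set ℂ) (F : ℂ → E) (z : ℂ)
    (h : mv P F z ≠ ⊤) : z ∈ P := by
  by_contra hz
  apply h
  unfold mv
  rw [if_neg hz]

theorem mv_toReal {E : Type} [NormedAddCommGroup E] (P : Set ℂ) (F : ℂ → E) (z : ℂ)
    (h : z ∈ P) : (mv P F z).toReal = Real.posLog ‖F z‖ := by
  unfold mv
  rw [if_pos h, ENNReal.toReal_ofReal Real.posLog_nonneg]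

theorem exp_posLog_mul (x : ℝ) (hx : 0 ≤ x) : Real.exp (-(Real.posLog x)) * x ≤ 1 := by
  rcases hx.eq_or_lt with h | h
  · rw [← h, mul_zero]
    exact zero_le_one
  · have h1 : Real.log x ≤ Real.posLog x := by
      rw [Real.posLog_def]
      exact le_max_right _ _
    have h2 : Real.exp (-(Real.posLog x)) ≤ Real.exp (-(Real.log x)) :=
      Real.exp_le_exp.mpr (by linarith)
    calc Real.exp (-(Real.posLog x)) * x ≤ Real.exp (-(Real.log x)) * x :=
          mul_le_mul_of_nonneg_right h2 hx
      _ = 1 := by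
          rw [Real.exp_neg, Real.exp_log h, inv_mul_cancel₀ h.ne']

theorem mv_meas {E : Type} [NormedAddCommGroup E] (P : Set ℂ) (F : ℂ → E)
    (hP : MeasurableSet P) (hF : StronglyMeasurable F) : Measurable (mv P F) := by
  classical
  have h1 : Measurable (fun z : ℂ => ENNReal.ofReal (Real.posLog ‖F z‖)) := by
    have h2 : Measurable (fun z : ℂ => ‖F z‖) := hF.norm.measurable
    exact (Real.continuous_posLog.measurable.comp h2).ennreal_ofReal
  have h3 : mv P F = fun z => if z ∈ P then ENNReal.ofReal (Real.posLog ‖F z‖) else ⊤ := by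
    funext z
    unfold mv
    by_cases hz : z ∈ P
    · simp only [if_pos hz]
    · simp only [if_neg hz]
  rw [h3]
  exact Measurable.ite hP h1 measurable_const

theorem main (hOUTM : OUTM) : Pool.Agent.W610.HY.GOODM := by
  intro E _ P F c r hP hF hr hfin
  have hm : Measurable (fun θ : ℝ => mv P F (circleMap c r θ)) :=
    (mv_meas P F hP hF).comp (continuous_circleMap c r).measurable
  obtain ⟨h, hmeas, hae, hne, hvan⟩ := hOUTM _ hm hfin
  refine ⟨h, ⟨hr, hmeas, ?_, ?_, ?_, hne, ?_⟩⟩
  · filter_upwards [hae] with θ hθ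
    exact mv_mem P F _ hθ.1
  · filter_upwards [hae] with θ hθ
    refine hθ.2.trans ?_
    rw [Real.exp_le_one_iff]
    have := ENNReal.toReal_nonneg (a := mv P F (circleMap c r θ))
    linarith
  · filter_upwards [hae] with θ hθ
    have h1 := mv_mem P F _ hθ.1
    have h2 := hθ.2
    rw [mv_toReal P F _ h1] at h2
    exact (mul_le_mul_of_nonneg_right h2 (norm_nonneg _)).trans
      (exp_posLog_mul _ (norm_nonneg _))
  · intro w hw
    have hr0 : (r : ℂ) ≠ 0 := by exact_mod_cast hr.ne'
    have h1 : 1 < ‖(w - c) / (r : ℂ)‖ := by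
      rw [norm_div, Complex.norm_real, Real.norm_eq_abs, abs_of_pos hr, lt_div_iff₀ hr, one_mul]
      exact hw
    have h2 := hvan _ h1
    have h3 : ∀ θ : ℝ, h θ * (circleMap 0 1 θ / (circleMap c r θ - w)) =
        (r : ℂ)⁻¹ * (h θ * (circleMap 0 1 θ / (circleMap 0 1 θ - (w - c) / (r : ℂ)))) := by
      intro θ
      have h4 : circleMap c r θ - w = (r : ℂ) * (circleMap 0 1 θ - (w - c) / (r : ℂ)) := by
        simp only [circleMap]
        field_simp
        push_cast
        ring
      rw [h4, div_mul_eq_div_div, div_eq_mul_inv (circleMap 0 1 θ) (r : ℂ)]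
      ring
    simp only [h3]
    rw [intervalIntegral.integral_const_mul, h2, mul_zero]

end Pool.Agent.W201.HY.GOODM
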